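import Pool.Agent.Lib.MP_73edb1_nt.Power

set_option autoImplicit false
open Finset Equiv

namespace Pool.Agent.Results.MP_73edb1_nt.PermanentModSq

open Pool.Agent.Lib.MP_73edb1_nt

lemma modEq_of_eq {n a b : ℤ} (h : a = b) : a ≡ b [ZMOD n] := by
  rw [h]

/-- the full rank two skew symmetric term vanishes in odd size -/
lemma subPer_univ_odd {ι : Type*} [Fintype ι] [DecidableEq ι] (x : ι → ℤ)
    (h : Odd (Fintype.card ι)) : subPer x univ = 0 := by
  have h0 : subPer x (univ : Finset ι) = ∑ τ : Perm ι, ∏ i, (x i - x (τ i)) := by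
    unfold subPer
    let e : ι ≃ ((univ : Finset ι) : Finset ι) := (Equiv.subtypeUnivEquiv (fun a => mem_univ a)).symm
    rw [sum_perm_congr e (fun i => x i)]
    rfl
  rw [h0]
  have h1 : ∑ τ : Perm ι, ∏ i, (x i - x (τ i)) = - ∑ τ : Perm ι, ∏ i, (x i - x (τ i)) := by
    conv_lhs => rw [← Equiv.sum_comp (Equiv.inv (Perm ι))]
    rw [← Finset.sum_neg_distrib]
    refine Finset.sum_congr rfl fun τ _ => ?_
    rw [← Equiv.prod_comp τ]
    have hi : ∀ i, (Equiv.inv (Perm ι)) τ (τ i) = i := by intro i; simp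
    simp_rw [hi]
    have : ∀ i, x (τ i) - x i = - (x i - x (τ i)) := by intro i; ring
    simp_rw [this]
    rw [Finset.prod_neg, Finset.card_univ, h.neg_one_pow]
    ring
  linarith

lemma sum_powersetCard_top (n : ℕ) (H : Finset (Fin (n+1)) → ℤ) :
    ∑ S ∈ powersetCard n (univ : Finset (Fin (n+1))), H S = ∑ a, H (univ.erase a) := by
  symm
  refine Finset.sum_bij (fun a _ => univ.erase a) ?_ ?_ ?_ ?_
  · intro a _
    rw [mem_powersetCard]
    exact ⟨subset_univ _, card_erase_fin n a⟩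
  · intro a _ b _ h
    by_contra hne
    have : a ∈ (univ : Finset (Fin (n+1))).erase b := by simpa using hne
    rw [← h] at this
    simp at this
  · intro S hS
    rw [mem_powersetCard] at hS
    have : Sᶜ.card = 1 := by
      rw [Finset.card_compl, hS.2]; simp
    obtain ⟨a, ha⟩ := Finset.card_eq_one.mp this
    refine ⟨a, mem_univ _, ?_⟩
    have h2 : S = {a}ᶜ := by rw [← ha, compl_compl]
    rw [h2]
    ext i; simp
  · intro a _; rfl

lemma top_term (n : ℕ) (hp : (n+1).Prime) (hn : Even n) (hn2 : 2 ≤ n) :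
    ∑ S ∈ powersetCard n (univ : Finset (Fin (n+1))), subPer (fun i : Fin (n+1) => ((i:ℕ):ℤ)) S
      ≡ 4 * ((n+1 : ℕ) : ℤ) [ZMOD ((n+1 : ℕ):ℤ)^2] := by
  obtain ⟨x, hxdef⟩ : ∃ x : Fin (n+1) → ℤ, x = fun i : Fin (n+1) => ((i:ℕ):ℤ) := ⟨_, rfl⟩
  rw [← hxdef]
  have hx : ∀ k, k + 1 ≤ n → ((n+1 : ℕ) : ℤ) ∣ ∑ i : Fin (n+1), x i ^ k := by
    intro k hk
    rw [hxdef]
    exact powerSum_dvd (n+1) hp k (by simpa using hk)
  have hP : ∑ a : Fin (n+1), x a ^ n ≡ (1 - ((n+1 : ℕ):ℤ)) * (n.factorial : ℤ) [ZMOD ((n+1 : ℕ):ℤ)^2] := by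
    rw [hxdef]
    exact powerSum_top n hp hn (by omega)
  have hW : ∑ a, esy x n (univ.erase a) = (n.factorial : ℤ) := by
    rw [hxdef]; exact sum_esy_erase n
  rw [sum_powersetCard_top]
  have h1 : ∀ a : Fin (n+1), subPer x (univ.erase a) = ∑ k ∈ range (n + 1), (-1) ^ k *
          ((k.factorial * (n - k).factorial : ℕ) : ℤ) * esy x k (univ.erase a) * esy x (n - k) (univ.erase a) := by
    intro a
    rw [subPer_eq, card_erase_fin]
  simp_rw [h1]
  rw [Finset.sum_comm]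
  have h2 : ∀ k ∈ range (n+1), ∑ a : Fin (n+1), (-1:ℤ) ^ k *
          ((k.factorial * (n - k).factorial : ℕ) : ℤ) * esy x k (univ.erase a) * esy x (n - k) (univ.erase a)
      = (-1) ^ k * ((k.factorial * (n - k).factorial : ℕ) : ℤ) *
        ∑ a : Fin (n+1), esy x k (univ.erase a) * esy x (n - k) (univ.erase a) := by
    intro k _
    rw [Finset.mul_sum]
    refine Finset.sum_congr rfl fun a _ => by ring
  rw [Finset.sum_congr rfl h2]
  obtain ⟨P, hPdef⟩ : ∃ P : ℤ, P = ∑ a : Fin (n+1), x a ^ n := ⟨_, rfl⟩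
  -- replace each middle inner sum by P
  have h3 : ∀ k ∈ range (n+1), (-1:ℤ) ^ k * ((k.factorial * (n - k).factorial : ℕ) : ℤ) *
        ∑ a : Fin (n+1), esy x k (univ.erase a) * esy x (n - k) (univ.erase a)
      ≡ (-1) ^ k * ((k.factorial * (n - k).factorial : ℕ) : ℤ) * P +
        (if k = 0 then (n.factorial : ℤ) * ((n.factorial : ℤ) - P) else 0) +
        (if k = n then (n.factorial : ℤ) * ((n.factorial : ℤ) - P) else 0) [ZMOD ((n+1 : ℕ):ℤ)^2] := by
    intro k hk
    rw [mem_range] at hk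
    by_cases hk0 : k = 0
    · subst hk0
      rw [if_pos rfl, if_neg (by omega)]
      simp only [esy_zero, one_mul, Nat.sub_zero, hW, pow_zero, Nat.factorial_zero]
      refine modEq_of_eq ?_
      ring
    · by_cases hkn : k = n
      · subst hkn
        rw [if_neg hk0, if_pos rfl]
        simp only [Nat.sub_self, esy_zero, mul_one, hW, Nat.factorial_zero, hn.neg_one_pow]
        refine modEq_of_eq ?_
        ring
      · rw [if_neg hk0, if_neg hkn, add_zero, add_zero, hPdef]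
        refine Int.ModEq.mul_left _ ?_
        exact sum_esy_mul (n+1) hp x n rfl hn hx k (by omega) (by omega)
  refine (Int.ModEq.sum h3).trans ?_
  rw [Finset.sum_add_distrib, Finset.sum_add_distrib, ← Finset.sum_mul]
  have h4 : ∑ k ∈ range (n+1), (if k = 0 then (n.factorial : ℤ) * ((n.factorial : ℤ) - P) else 0)
      = (n.factorial : ℤ) * ((n.factorial : ℤ) - P) := by
    rw [Finset.sum_ite_eq' (range (n+1)) 0]; simp
  have h5 : ∑ k ∈ range (n+1), (if k = n then (n.factorial : ℤ) * ((n.factorial : ℤ) - P) else 0)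
      = (n.factorial : ℤ) * ((n.factorial : ℤ) - P) := by
    rw [Finset.sum_ite_eq' (range (n+1)) n]; simp
  rw [h4, h5]
  obtain ⟨Q, hQ⟩ : ∃ Q : ℤ, Q = ∑ k ∈ range (n+1), (-1:ℤ) ^ k * ((k.factorial * (n - k).factorial : ℕ) : ℤ) := ⟨_, rfl⟩
  rw [← hQ]
  have h6 : ((n:ℤ) + 2) * Q = 2 * ((n+1).factorial : ℤ) := by
    rw [hQ, alt_sum_factorial, hn.neg_one_pow]; ring
  rw [← hPdef] at hP
  -- cancel n + 2
  obtain ⟨F, hF⟩ : ∃ F : ℤ, F = (n.factorial : ℤ) := ⟨_, rfl⟩
  rw [← hF] at hP ⊢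
  rw [Nat.factorial_succ] at h6
  push_cast at h6
  rw [← hF] at h6
  obtain ⟨q, hq⟩ : ∃ q : ℤ, q = ((n+1 : ℕ) : ℤ) := ⟨_, rfl⟩
  rw [← hq] at hP ⊢
  have hnq : (n:ℤ) = q - 1 := by rw [hq]; push_cast; ring
  have hwil : q ∣ F + 1 := by
    have hf : Fact (n+1).Prime := ⟨hp⟩
    have := ZMod.wilsons_lemma (n+1)
    have e1 : n + 1 - 1 = n := by omega
    rw [e1] at this
    rw [hq, hF, ← ZMod.intCast_zmod_eq_zero_iff_dvd]
    push_cast
    rw [this]
    ring
  rw [hnq] at h6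
  -- target : Q * P + F*(F-P) + F*(F-P) ≡ 4 q mod q^2
  obtain ⟨c, hc⟩ := hP.dvd
  obtain ⟨d, hd⟩ := hwil
  have hPv : P = (1 - q) * F - q^2 * c := by linarith
  have hFv : F = q * d - 1 := by linarith
  have hcop : IsCoprime (q^2) (q + 1) := by
    apply IsCoprime.pow_left
    exact ⟨-1, 1, by ring⟩
  rw [Int.modEq_iff_dvd]
  refine hcop.dvd_of_dvd_mul_left (z := _) ?_
  -- (q+1) * (4 q - (Q P + ...))
  have h7 : (q + 1) * Q = 2 * q * F := by linear_combination h6
  have h8 : (q + 1) * (4 * q - (Q * P + F * (F - P) + F * (F - P)))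
      = 4 * q * (q+1) - 2 * q * F * P - 2 * (q+1) * F * (F - P) := by
    linear_combination (-P) * h7
  rw [h8, hPv, hFv]
  refine ⟨4 + 2 * q * (q*d-1) * c + 4 * (d * 2 - q * d^2) - 2 * (q+1) * (q*d-1) * c, ?_⟩
  ring

theorem result (p : ℕ) (hp : p.Prime) (hp2 : p ≠ 2) :
    (Matrix.of fun i l : Fin p =>
      (((i:ℕ):ℤ) + 1) - (((l:ℕ):ℤ) + 1) + if i = l then 1 else 0).permanent
      ≡ 4 * (p:ℤ) + 1 [ZMOD (p:ℤ)^2] := by
  obtain ⟨n, rfl⟩ : ∃ n, p = n + 1 := ⟨p - 1, by have := hp.pos; omega⟩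
  have hn : Even n := by
    have := hp.odd_of_ne_two hp2
    obtain ⟨k, hk⟩ := this
    exact ⟨k, by omega⟩
  have hn2 : 2 ≤ n := by
    have := hp.two_le
    omega
  obtain ⟨x, hxdef⟩ : ∃ x : Fin (n+1) → ℤ, x = fun i : Fin (n+1) => ((i:ℕ):ℤ) := ⟨_, rfl⟩
  have h0 : (Matrix.of fun i l : Fin (n+1) =>
      (((i:ℕ):ℤ) + 1) - (((l:ℕ):ℤ) + 1) + if i = l then 1 else 0).permanent
      = ∑ σ : Perm (Fin (n+1)), ∏ i, ((x i - x (σ i)) + if i = σ i then 1 else 0) := by
    rw [← Matrix.permanent_transpose, Matrix.permanent]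
    refine Finset.sum_congr rfl fun σ _ => Finset.prod_congr rfl fun i _ => ?_
    simp only [Matrix.transpose_apply, Matrix.of_apply, hxdef]
    ring
  rw [h0, sum_perm_add_one (fun i l => x i - x l)]
  have h1 : ∑ S : Finset (Fin (n+1)), ∑ τ : Perm S, ∏ i : S, (x i - x (τ i))
      = ∑ S : Finset (Fin (n+1)), subPer x S := rfl
  rw [h1, ← Finset.powerset_univ, Finset.sum_powerset, Finset.card_univ, Fintype.card_fin]
  have hx : ∀ k, k + 1 ≤ n → ((n+1 : ℕ) : ℤ) ∣ ∑ i : Fin (n+1), x i ^ k := by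
    intro k hk
    rw [hxdef]
    exact powerSum_dvd (n+1) hp k (by simpa using hk)
  have h2 : ∀ j ∈ range (n+1+1), ∑ S ∈ powersetCard j (univ : Finset (Fin (n+1))), subPer x S
      ≡ (if j = 0 then 1 else 0) + (if j = n then 4 * ((n+1:ℕ):ℤ) else 0) [ZMOD ((n+1 : ℕ):ℤ)^2] := by
    intro j hj
    rw [mem_range] at hj
    by_cases hj0 : j = 0
    · subst hj0
      rw [if_pos rfl, if_neg (by omega)]
      refine modEq_of_eq ?_
      simp [subPer]
    · by_cases hjn : j = n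
      · subst hjn
        rw [if_neg hj0, if_pos rfl, zero_add, hxdef]
        exact top_term j hp hn hn2
      · by_cases hjt : j = n + 1
        · rw [if_neg hj0, if_neg hjn, hjt]
          refine modEq_of_eq ?_
          have : powersetCard (n+1) (univ : Finset (Fin (n+1))) = {univ} := by
            have := Finset.powersetCard_self (univ : Finset (Fin (n+1)))
            rwa [Finset.card_univ, Fintype.card_fin] at this
          rw [this, Finset.sum_singleton, subPer_univ_odd]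
          · simp
          · rw [Fintype.card_fin]; exact hn.add_one
        · rw [if_neg hj0, if_neg hjn, add_zero]
          obtain ⟨k, rfl⟩ : ∃ k, j = k + 1 := ⟨j - 1, by omega⟩
          exact sum_subPer_card (n+1) hp x (n-1) (by omega) (fun k hk => hx k (by omega)) k (by omega)
  refine (Int.ModEq.sum h2).trans ?_
  rw [Finset.sum_add_distrib]
  have h3 : ∑ j ∈ range (n+1+1), (if j = 0 then (1:ℤ) else 0) = 1 := by
    rw [Finset.sum_ite_eq' (range (n+1+1)) 0]; simp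
  have h4 : ∑ j ∈ range (n+1+1), (if j = n then 4 * ((n+1:ℕ):ℤ) else 0) = 4 * ((n+1:ℕ):ℤ) := by
    rw [Finset.sum_ite_eq' (range (n+1+1)) n]; simp
  rw [h3, h4]
  refine modEq_of_eq ?_
  ring

end Pool.Agent.Results.MP_73edb1_nt.PermanentModSq
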